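import Pool.Agent.NPG.Stmts

/-!
# NPG, row ONE, with proof (helper9)
-/

set_option autoImplicit false

open MeasureTheory Set Topology
open scoped BigOperators Pointwise

namespace Pool.Agent.NPG.H9

open Pool.Agent.LSG Pool.Agent.NPG

/-- a continuous function with the given open cozero set -/
theorem cozero (H : Type) [TopologicalSpace H] [TopologicalSpace.MetrizableSpace H] (V : Set H)
    (hV : IsOpen V) : ∃ ε : H → ℝ, Continuous ε ∧ (∀ x, 0 ≤ ε x) ∧ ∀ x, ε x ≠ 0 ↔ x ∈ V := by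
  letI := TopologicalSpace.metrizableSpaceMetric H
  by_cases hu : V = univ
  · refine ⟨fun _ => 1, continuous_const, fun _ => zero_le_one, fun x => ?_⟩
    simp [hu]
  · have hne : (Vᶜ).Nonempty := by
      rw [Set.nonempty_compl]
      exact hu
    refine ⟨fun x => Metric.infDist x Vᶜ, Metric.continuous_infDist_pt _,
      fun _ => Metric.infDist_nonneg, fun x => ?_⟩
    have h1 := hV.isClosed_compl.mem_iff_infDist_zero hne (x := x)
    constructor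
    · intro h
      by_contra hx
      exact h (h1.mp hx)
    · intro h h0
      exact (h1.mpr h0) h

/-- right translation of an invariant set -/
def rt {H : Type} [Group H] [TopologicalSpace H] [IsTopologicalGroup H] (D : Set H) (z : H)
    (hD : ∀ x, x * z ∈ D ↔ x ∈ D) : D ≃ₜ D where
  toFun x := ⟨x.1 * z, (hD x.1).mpr x.2⟩
  invFun x := ⟨x.1 * z⁻¹, (hD (x.1 * z⁻¹)).mp (by
    rw [inv_mul_cancel_right]
    exact x.2)⟩
  left_inv x := by
    apply Subtype.ext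
    simp
  right_inv x := by
    apply Subtype.ext
    simp
  continuous_toFun := by fun_prop
  continuous_invFun := by fun_prop

theorem one (hSlr : SlrStmt) (hCtk : CtkStmt) : OneStmt := by
  intro H _ _ _ _ V V₀ d l L D Z ξ hVo hV1 hVs hV₀o hV₀1 hV₀s hVV hd hdL hlL hdense hinv hrep
    hloc
  obtain ⟨ε, hεc, hε0, hεV⟩ := cozero H V hVo
  -- the core computation
  have core : ∀ (s s' : ℕ) (v v' q : H), v ∈ V → v' ∈ V → q ∈ V →
      q * (v * d s) = v' * d s' → s = s' := by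
    intro s s' v v' q hv hv' hq he
    by_contra hne
    have h1 : d s' * (d s)⁻¹ ∉ V * V * V * V := hd s' s (fun h => hne h.symm)
    apply h1
    have h2 : d s' * (d s)⁻¹ = v'⁻¹ * q * v * 1 := by
      have h3 : d s' = v'⁻¹ * (q * (v * d s)) := by rw [he, inv_mul_cancel_left]
      rw [h3]
      group
    rw [h2]
    exact Set.mul_mem_mul (Set.mul_mem_mul (Set.mul_mem_mul (hVs v' hv') hq) hv) hV1
  -- local constancy on the subspace
  have hloc' : ∀ x : D, ∀ᶠ y : D in nhds x, ξ y.1 = ξ x.1 := fun x =>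
    (continuous_subtype_val.continuousAt.eventually (hloc x.1 x.2)).mono fun y hy => hy y.2
  have hcont : ∀ j : ℕ, Continuous fun h : D => ε ((ξ h.1)⁻¹ * h.1 * (l j)⁻¹) := by
    intro j
    rw [continuous_iff_continuousAt]
    intro x
    have h1 : ContinuousAt (fun h : D => ε ((ξ x.1)⁻¹ * h.1 * (l j)⁻¹)) x := by
      apply Continuous.continuousAt
      fun_prop
    refine h1.congr ?_
    filter_upwards [hloc' x] with y hy
    rw [hy]
  let φ : ℕ → C(D, ℝ) := fun j => ⟨fun h => ε ((ξ h.1)⁻¹ * h.1 * (l j)⁻¹), hcont j⟩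
  have hφV : ∀ m (h : D), φ m h ≠ 0 → (ξ h.1)⁻¹ * h.1 * (l m)⁻¹ ∈ V := fun m h hh =>
    (hεV _).mp hh
  obtain ⟨χ, hχφ, hχf, hχs⟩ := hCtk D φ (fun m h => hε0 _) (by
    intro h
    obtain ⟨w, hw, z, hz, e⟩ := hrep h.1 h.2
    obtain ⟨j, hj⟩ := hdense z hz V₀ (hV₀o.mem_nhds hV₀1)
    refine ⟨j, (hεV _).mpr ?_⟩
    have e2 : (ξ h.1)⁻¹ * h.1 * (l j)⁻¹ = w * (z * (l j)⁻¹) := by
      nth_rewrite 2 [e]
      group
    rw [e2]
    exact hVV _ hw _ hj)
  have hχV : ∀ m (h : D), χ m h ≠ 0 → (ξ h.1)⁻¹ * h.1 * (l m)⁻¹ ∈ V := fun m h hh =>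
    hφV m h (hχφ m h hh)
  have hzL : ∀ n m : ℕ, (l m)⁻¹ * d (Nat.pair n m) ∈ L := fun n m =>
    L.mul_mem (L.inv_mem (hlL m)) (hdL _)
  let τ : ℕ → ℕ → D ≃ₜ D := fun n m =>
    rt D ((l m)⁻¹ * d (Nat.pair n m)) (fun x => (hinv x _ (hzL n m)).1)
  have hτ : ∀ n m (h : D), (τ n m h).1 = h.1 * ((l m)⁻¹ * d (Nat.pair n m)) := fun _ _ _ => rfl
  have hτξ : ∀ n m (h : D), ξ (τ n m h).1 = ξ h.1 := fun n m h => by
    rw [hτ]
    exact (hinv h.1 _ (hzL n m)).2.2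
  -- the landing point
  have hland : ∀ n m (h : D), (ξ (τ n m h).1)⁻¹ * (τ n m h).1 =
      ((ξ h.1)⁻¹ * h.1 * (l m)⁻¹) * d (Nat.pair n m) := fun n m h => by
    rw [hτξ, hτ]
    group
  refine hSlr D ℕ {x : D | x.1 ∈ Z} (fun _ m => χ m) τ ?_ ?_ ?_ ?_ ?_
  · intro n b x
    exact (hinv x.1 _ (hzL n b)).2.1
  · intro n
    exact hχf
  · intro y₀
    have hW : {y : D | ξ y.1 = ξ y₀.1 ∧ (ξ y₀.1)⁻¹ * y.1 * y₀.1⁻¹ * ξ y₀.1 ∈ V₀} ∈ nhds y₀ := by
      refine Filter.inter_mem (hloc' y₀) ?_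
      have hc : Continuous fun y : D => (ξ y₀.1)⁻¹ * y.1 * y₀.1⁻¹ * ξ y₀.1 := by fun_prop
      refine (hV₀o.preimage hc).mem_nhds ?_
      have e : (ξ y₀.1)⁻¹ * y₀.1 * y₀.1⁻¹ * ξ y₀.1 = 1 := by group
      change (ξ y₀.1)⁻¹ * y₀.1 * y₀.1⁻¹ * ξ y₀.1 ∈ V₀
      rw [e]
      exact hV₀1
    refine ⟨_, hW, Set.Subsingleton.finite ?_⟩
    rintro ⟨n, m⟩ ⟨y, ⟨h, hh, hy⟩, hy1, hy2⟩ ⟨n', m'⟩ ⟨y', ⟨h', hh', hy'⟩, hy1', hy2'⟩
    have hh1 : χ m h ≠ 0 := hh
    have hh1' : χ m' h' ≠ 0 := hh'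
    have hy0 : τ n m h = y := hy
    have hy0' : τ n' m' h' = y' := hy'
    have e1 := hland n m h
    have e1' := hland n' m' h'
    rw [hy0, hy1] at e1
    rw [hy0', hy1'] at e1'
    set x := ξ y₀.1 with hx
    have hq : x⁻¹ * y'.1 * y.1⁻¹ * x ∈ V := by
      have e2 : x⁻¹ * y'.1 * y.1⁻¹ * x =
          (x⁻¹ * y'.1 * y₀.1⁻¹ * x) * (x⁻¹ * y.1 * y₀.1⁻¹ * x)⁻¹ := by group
      rw [e2]
      exact hVV _ hy2' _ (hV₀s _ hy2)
    have hs := core (Nat.pair n m) (Nat.pair n' m') _ _ _ (hχV m h hh1) (hχV m' h' hh1') hq (by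
      rw [← e1, ← e1']
      group)
    have hp := Nat.pair_eq_pair.mp hs
    exact Prod.ext hp.1 hp.2
  · intro n h
    exact hχs h
  · intro n b n' b' h h' hb hb' he
    have e1 := hland n b h
    have e1' := hland n' b' h'
    rw [he] at e1
    have hs := core (Nat.pair n b) (Nat.pair n' b') _ _ 1 (hχV b h hb) (hχV b' h' hb') hV1 (by
      rw [one_mul, ← e1, ← e1'])
    exact Nat.pair_eq_pair.mp hs

end Pool.Agent.NPG.H9
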